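import Mathlib
import Pool.Agent.Q155.Iso.Basic
import Pool.Agent.Q155.Iso.Main
import Pool.Agent.Q155.Iso.Disk

/-!
# MP_08e0ef_gt: a compact convex set with two circular isoptics is a disk
-/

set_option autoImplicit false
open Set Real Pool.Agent.Q155.Iso

namespace Pool.Agent.Results.MP_08e0ef_gt.TwoCirclesDisk

/-- the isoptic of `S` at the angle `α`, closed up by the corners of `S` it may run into, is a
circle -/
def CircularIsoptic (S : Set ℂ) (α : ℝ) : Prop :=
  ∃ (O : ℂ) (R : ℝ), 0 < R ∧ closure (isoptic S α) = Metric.sphere O R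

theorem result (S : Set ℂ) (hc : IsCompact S) (hconv : Convex ℝ S) (α β : ℝ)
    (hα : α ∈ Ioo 0 π) (hβ : β ∈ Ioo 0 π) (hne : α ≠ β)
    (h1 : CircularIsoptic S α) (h2 : CircularIsoptic S β) :
    ∃ (O : ℂ) (r : ℝ), 0 < r ∧ S = Metric.closedBall O r ∧
      ∀ γ ∈ Ioo 0 π, isoptic S γ = Metric.sphere O (r / sin (γ / 2)) ∧ CircularIsoptic S γ := by
  obtain ⟨O, R, hR, hO⟩ := h1
  obtain ⟨P, Q, hQ, hP⟩ := h2
  obtain ⟨hns, c1⟩ := one_circle hc hα.1 hα.2 hR hO
  obtain ⟨-, c2⟩ := one_circle hc hβ.1 hβ.2 hQ hP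
  have hs1 : sin (π - α) ≠ 0 := by
    rw [sin_pi_sub]
    exact (sin_pos_of_pos_of_lt_pi hα.1 hα.2).ne'
  have hs2 : sin (π - β) ≠ 0 := by
    rw [sin_pi_sub]
    exact (sin_pos_of_pos_of_lt_pi hβ.1 hβ.2).ne'
  have hOP : O = P := centre_eq hs1 hs2 c1.per c2.per
  subst hOP
  have hcont : Continuous fun θ => supp S θ - dot O θ := by
    have h1 := continuous_supp hc
    unfold dot
    fun_prop
  have hconst := two_circles hcont (by linarith [hα.2]) (by linarith [hα.1])
    (by linarith [hβ.2]) (by linarith [hβ.1]) (fun h => hne (by linarith)) c1 c2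
  have hne' : S.Nonempty := by
    rw [Set.not_subsingleton_iff] at hns
    exact hns.nonempty
  have hS := eq_closedBall hc hconv hne' (r := supp S 0 - dot O 0) (fun θ => hconst θ 0)
  set r := supp S 0 - dot O 0 with hr
  have hr0 : 0 < r := by
    by_contra hcon
    push Not at hcon
    apply hns
    rw [hS]
    intro x hx y hy
    rw [mem_closedBall_iff_norm] at hx hy
    have hx0 : x = O := sub_eq_zero.1 (norm_le_zero_iff.1 (hx.trans hcon))
    have hy0 : y = O := sub_eq_zero.1 (norm_le_zero_iff.1 (hy.trans hcon))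
    rw [hx0, hy0]
  refine ⟨O, r, hr0, hS, ?_⟩
  intro γ hγ
  have hiso := isoptic_closedBall O hr0 hγ.1 hγ.2
  rw [← hS] at hiso
  have hsin : 0 < sin (γ / 2) :=
    sin_pos_of_pos_of_lt_pi (by linarith [hγ.1]) (by linarith [hγ.1, hγ.2])
  refine ⟨hiso, O, r / sin (γ / 2), div_pos hr0 hsin, ?_⟩
  rw [hiso]
  exact Metric.isClosed_sphere.closure_eq

end Pool.Agent.Results.MP_08e0ef_gt.TwoCirclesDisk
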